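import Pool.Agent.H90.RG.Targets

/-! Board `reg_modules`, row G_FN3: the Hessian bound in dimension at least three, from partial
regularity. -/

set_option autoImplicit false

namespace Pool.Agent.H42.RG

open MeasureTheory Metric Set Filter Topology Pool.Agent.H87.SN Pool.Agent.H90.RG
open scoped ContDiff RealInnerProductSpace ENNReal

theorem pf_FN3 (hP : T_PRG) (hS : T_SHE) : T_FN3 := by
  intro d m N A ε hN hA hε hEps hAll C
  obtain ⟨δ, hδ, h⟩ := hAll m N A (ε / 2 ^ d) C hN hA (by positivity)
  refine ⟨δ, hδ, fun u G hSH hE => ?_⟩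
  obtain ⟨U, u', hUo, hU2, hsm, hae, hsing⟩ := hP d m N A ε hε hEps u G hSH
  exact h U u' G (hS _ m N A u u' G hSH (ae_restrict_of_ae hae)) hUo hU2 hsm hsing hE

end Pool.Agent.H42.RG
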