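import Pool.Agent.H51.RG.App

/-!
# Three perfect matchings with empty intersection in small cubic graphs
-/

set_option autoImplicit false
set_option linter.unusedSectionVars false

namespace Pool.Agent.H42.RG

open Pool.Agent.H43.F5 Pool.Agent.H51.RG Finset

variable {V E : Type} [DecidableEq V] [DecidableEq E] {G : Gr V E}

/-- the edges of a cut inside a matching -/
lemma cut_inter {M : Finset E} (hM : PM G M) (X : Finset V) :
    cut G G.es X ∩ M = cut G M X := by
  ext e
  simp only [mem_inter, mem_cut]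
  constructor
  · rintro ⟨⟨_, h2⟩, h3⟩; exact ⟨h3, h2⟩
  · rintro ⟨h3, h2⟩; exact ⟨⟨hM.sub h3, h2⟩, h3⟩

/-- the edges of a star inside a matching -/
lemma star_inter {M : Finset E} (hM : PM G M) (v : V) :
    star G G.es v ∩ M = star G M v := by
  ext e
  simp only [mem_inter, mem_star]
  constructor
  · rintro ⟨⟨_, h2⟩, h3⟩; exact ⟨h3, h2⟩
  · rintro ⟨h3, h2⟩; exact ⟨⟨hM.sub h3, h2⟩, h3⟩

/-- a cut inside a matching is a matching -/
lemma cut_matching (hG : Ok G) {M : Finset E} (hM : PM G M) (X : Finset V)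
    (h1 : (cut G M X).card = (cut G G.es X).card) (v : V) :
    (star G (cut G G.es X) v).card ≤ 1 := by
  have h2 : cut G M X = cut G G.es X :=
    eq_of_subset_of_card_le (cut_mono hM.sub X) (by rw [h1])
  have h3 : star G (cut G G.es X) v ⊆ star G M v := by
    intro e he
    rw [mem_star, ← h2, mem_cut] at he
    exact mem_star.2 ⟨he.1.1, he.2⟩
  by_cases hv : v ∈ G.vs
  · have h4 := card_le_card h3
    rw [hM.deg v hv] at h4
    exact h4
  · have h4 : star G M v = ∅ := by
      rw [eq_empty_iff_forall_notMem]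
      intro e he
      rw [mem_star] at he
      rcases he.2 with h5 | h5
      · exact hv (h5 ▸ hG.ha e (hM.sub he.1))
      · exact hv (h5 ▸ hG.hb e (hM.sub he.1))
    have h5 := card_le_card h3
    rw [h4, card_empty] at h5
    omega

/-- parity and size of the part of an odd cut in a perfect matching -/
lemma part (hG : Ok G) {M : Finset E} (hM : PM G M) {X : Finset V} (hX : X ⊆ G.vs)
    (ho : Odd X.card) :
    1 ≤ (cut G M X).card ∧ ((cut G M X).card = (cut G G.es X).card ∨
      (cut G M X).card + 2 ≤ (cut G G.es X).card) := by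
  have h1 := (odd_cut hG hX ho).1
  have h3 : (cut G M X).card ≤ (cut G G.es X).card := card_le_card (cut_mono hM.sub X)
  have h4 := cutN_parity hG hM hX
  rw [Nat.odd_iff] at ho h1
  omega

/-- the two matchings -/
theorem two (hE : T_EDM) (hG : Ok G) (k : ℕ) (hk5 : 5 ≤ k)
    (hs : ∀ X ⊆ G.vs, Odd (cut G G.es X).card → (∀ v, (star G (cut G G.es X) v).card ≤ 1) →
      (cut G G.es X).card = 3 ∨ k ≤ (cut G G.es X).card) :
    ∃ M N, PM G M ∧ PM G N ∧
      (∀ X ⊆ G.vs, Odd X.card → (cut G G.es X).card = 3 → (cut G M X).card = 1) ∧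
      (∀ X ⊆ G.vs, Odd X.card → (cut G G.es X).card = 3 → (cut G N X).card = 1) ∧
      (∀ X ⊆ G.vs, Odd X.card → (cut G G.es X).card = k → (cut G M X).card = k →
        (cut G N X).card = 1) ∧
      2 * k * (N ∩ M).card ≤ G.vs.card := by
  classical
  -- first matching
  have w1 : Wt G (fun _ => (1 / 3 : ℚ)) := by
    refine ⟨hG.ha, hG.hb, hG.ne, fun _ _ => by norm_num, ?_, ?_⟩
    · intro v hv
      rw [sum_const, hG.deg v hv]; norm_num
    · intro X hX ho
      have h1 := (odd_cut hG hX ho).2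
      rw [sum_const, nsmul_eq_mul]
      have : (3 : ℚ) ≤ (cut G G.es X).card := by exact_mod_cast h1
      linarith
  let T3 := G.vs.powerset.filter (fun X => Odd X.card ∧ (cut G G.es X).card = 3)
  obtain ⟨M, hM, hM3, _⟩ := exact_cuts hE hG w1 T3 (by
    intro X hX
    obtain ⟨h1, h2, h3⟩ := mem_filter.1 hX
    refine ⟨mem_powerset.1 h1, h2, ?_⟩
    rw [sum_const, h3]; norm_num) (fun _ => 0) (fun _ _ => le_refl _)
  -- second matching
  have hkq : (5 : ℚ) ≤ k := by exact_mod_cast hk5
  have hk0 : (0 : ℚ) < k := by linarith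
  let w2 : E → ℚ := fun e => if e ∈ M then 1 / k else (k - 1) / (2 * k)
  have hw2 : ∀ A : Finset E, 2 * k * ∑ e ∈ A, w2 e =
      (k - 1) * A.card - (k - 3) * (A ∩ M).card := by
    intro A
    have h1 : ∀ e ∈ A, 2 * k * w2 e = (k - 1 : ℚ) - (if e ∈ M then (k - 3 : ℚ) else 0) := by
      intro e _
      show 2 * (k : ℚ) * (if e ∈ M then (1 / k : ℚ) else (k - 1) / (2 * k)) = _
      split_ifs
      · field_simp; ring
      · field_simp; ring
    rw [mul_sum, sum_congr rfl h1, sum_sub_distrib, sum_const, ← sum_filter, sum_const,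
      filter_mem_eq_inter, nsmul_eq_mul, nsmul_eq_mul]
    ring
  have hge : ∀ s : ℚ, 2 * k ≤ 2 * k * s → 1 ≤ s := by
    intro s h1
    by_contra h2
    push Not at h2
    nlinarith
  have heq : ∀ s : ℚ, 2 * k * s = 2 * k → s = 1 := by
    intro s h1
    have : (2 * k : ℚ) ≠ 0 := by positivity
    apply mul_left_cancel₀ this
    rw [h1, mul_one]
  have W2 : Wt G w2 := by
    refine ⟨hG.ha, hG.hb, hG.ne, ?_, ?_, ?_⟩
    · intro e _
      show 0 < (if e ∈ M then (1 / k : ℚ) else (k - 1) / (2 * k))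
      split_ifs
      · positivity
      · apply div_pos <;> linarith
    · intro v hv
      apply heq
      rw [hw2, star_inter hM, hG.deg v hv, hM.deg v hv]; push_cast; ring
    · intro X hX ho
      apply hge
      rw [hw2, cut_inter hM]
      obtain ⟨h1, h2⟩ := odd_cut hG hX ho
      obtain ⟨h5, h6 | h6⟩ := part hG hM hX ho
      · have h7 : k ≤ (cut G G.es X).card := by
          rcases hs X hX h1 (cut_matching hG hM X h6) with h8 | h8
          · have h9 := hM3 X (mem_filter.2 ⟨mem_powerset.2 hX, ho, h8⟩)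
            omega
          · omega
        have h8 : ((cut G M X).card : ℚ) = (cut G G.es X).card := by exact_mod_cast h6
        have h9 : (k : ℚ) ≤ (cut G G.es X).card := by exact_mod_cast h7
        rw [h8]
        linarith
      · have h8 : ((cut G M X).card : ℚ) + 2 ≤ (cut G G.es X).card := by exact_mod_cast h6
        have h9 : (1 : ℚ) ≤ (cut G M X).card := by exact_mod_cast h5
        nlinarith
  let T5 := G.vs.powerset.filter (fun X => Odd X.card ∧ ((cut G G.es X).card = 3 ∨
    ((cut G G.es X).card = k ∧ (cut G M X).card = k)))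
  obtain ⟨N, hN, hN5, hNM⟩ := exact_cuts hE hG W2 T5 (by
    intro X hX
    obtain ⟨h1, h2, h3⟩ := mem_filter.1 hX
    refine ⟨mem_powerset.1 h1, h2, ?_⟩
    apply heq
    rw [hw2, cut_inter hM]
    rcases h3 with h3 | ⟨h3, h4⟩
    · rw [hM3 X (mem_filter.2 ⟨h1, h2, h3⟩), h3]
      push_cast; ring
    · rw [h3, h4]; ring) (fun e => if e ∈ M then 1 else 0) (by
    intro e _
    show (0 : ℚ) ≤ if e ∈ M then 1 else 0
    split_ifs <;> norm_num)
  have hint : 2 * k * (N ∩ M).card ≤ G.vs.card := by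
    have h1 : ∑ e ∈ N, (if e ∈ M then (1 : ℚ) else 0) = (N ∩ M).card := by
      rw [← sum_filter, filter_mem_eq_inter, sum_const, nsmul_eq_mul, mul_one]
    have h2 : ∑ e ∈ G.es, (if e ∈ M then (1 : ℚ) else 0) * w2 e = 1 / k * M.card := by
      have h3 : ∀ e ∈ G.es, (if e ∈ M then (1 : ℚ) else 0) * w2 e =
          if e ∈ M then 1 / (k : ℚ) else 0 := by
        intro e _
        show (if e ∈ M then (1 : ℚ) else 0) * (if e ∈ M then (1 / k : ℚ) else (k - 1) / (2 * k)) = _
        split_ifs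
        · ring
        · ring
      rw [sum_congr rfl h3, ← sum_filter, filter_mem_eq_inter, inter_eq_right.2 hM.sub, sum_const,
        nsmul_eq_mul]
      ring
    rw [h1, h2] at hNM
    have h4 := two_card hG hM
    have h5 : (2 : ℚ) * M.card = G.vs.card := by exact_mod_cast h4
    have h7 : 2 * (k : ℚ) * (N ∩ M).card ≤ 2 * k * (1 / k * M.card) :=
      mul_le_mul_of_nonneg_left hNM (by positivity)
    have h8 : 2 * (k : ℚ) * (1 / k * M.card) = 2 * M.card := by field_simp
    have h6 : 2 * (k : ℚ) * (N ∩ M).card ≤ G.vs.card := by linarith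
    exact_mod_cast h6
  refine ⟨M, N, hM, hN, ?_, ?_, ?_, hint⟩
  · intro X hX ho h3
    exact hM3 X (mem_filter.2 ⟨mem_powerset.2 hX, ho, h3⟩)
  · intro X hX ho h3
    exact hN5 X (mem_filter.2 ⟨mem_powerset.2 hX, ho, Or.inl h3⟩)
  · intro X hX ho h3 h4
    exact hN5 X (mem_filter.2 ⟨mem_powerset.2 hX, ho, Or.inr ⟨h3, h4⟩⟩)

/-- the three matchings -/
theorem three (hE : T_EDM) (hG : Ok G) (k r : ℕ) (hk5 : 5 ≤ k) (hkr : k ≤ r)
    (hrk : r + 3 ≤ 2 * k)
    (hs : ∀ X ⊆ G.vs, Odd (cut G G.es X).card → (∀ v, (star G (cut G G.es X) v).card ≤ 1) →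
      (cut G G.es X).card = 3 ∨ (cut G G.es X).card = k ∨ r ≤ (cut G G.es X).card)
    (hn : G.vs.card < 2 * k * r) :
    ∃ M N L, PM G M ∧ PM G N ∧ PM G L ∧ ∀ e, ¬ (e ∈ M ∧ e ∈ N ∧ e ∈ L) := by
  classical
  obtain ⟨M, N, hM, hN, hM3, hN3, hNk, hint⟩ := two hE hG k hk5 (by
    intro X hX h1 h2
    rcases hs X hX h1 h2 with h3 | h3 | h3
    · exact Or.inl h3
    · exact Or.inr (by omega)
    · exact Or.inr (by omega))
  have hrq : (5 : ℚ) ≤ r := by exact_mod_cast (by omega : 5 ≤ r)
  have hrkq : (r : ℚ) + 3 ≤ 2 * k := by exact_mod_cast hrk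
  have hkrq : (k : ℚ) ≤ r := by exact_mod_cast hkr
  have hkq : (5 : ℚ) ≤ k := by exact_mod_cast hk5
  have hr0 : (0 : ℚ) < r := by linarith
  let w3 : E → ℚ := fun e => (2 * (r - 1) - (r - 3) * (if e ∈ M then 1 else 0) -
    (r - 3) * (if e ∈ N then 1 else 0)) / (4 * r)
  have hw3e : ∀ e, 4 * r * w3 e = 2 * (r - 1 : ℚ) - (r - 3) * (if e ∈ M then 1 else 0) -
      (r - 3) * (if e ∈ N then 1 else 0) := by
    intro e
    show 4 * r * ((2 * (r - 1 : ℚ) - (r - 3) * (if e ∈ M then 1 else 0) -
      (r - 3) * (if e ∈ N then 1 else 0)) / (4 * r)) = _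
    field_simp
  have hw3 : ∀ A : Finset E, 4 * r * ∑ e ∈ A, w3 e =
      2 * (r - 1) * A.card - (r - 3) * (A ∩ M).card - (r - 3) * (A ∩ N).card := by
    intro A
    have h0 : ∀ B : Finset E, ∑ e ∈ A, (if e ∈ B then (1 : ℚ) else 0) = (A ∩ B).card := by
      intro B
      rw [← sum_filter, filter_mem_eq_inter, sum_const, nsmul_eq_mul, mul_one]
    rw [mul_sum, sum_congr rfl (fun e _ => hw3e e), sum_sub_distrib, sum_sub_distrib, sum_const,
      ← mul_sum, ← mul_sum, h0, h0, nsmul_eq_mul]
    ring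
  have hge : ∀ s : ℚ, 4 * r ≤ 4 * r * s → 1 ≤ s := by
    intro s h1
    by_contra h2
    push Not at h2
    nlinarith
  have heq : ∀ s : ℚ, 4 * r * s = 4 * r → s = 1 := by
    intro s h1
    have : (4 * r : ℚ) ≠ 0 := by positivity
    apply mul_left_cancel₀ this
    rw [h1, mul_one]
  -- a cut inside M or inside N has at least k edges
  have hbig : ∀ B, PM G B → (∀ X ⊆ G.vs, Odd X.card → (cut G G.es X).card = 3 →
      (cut G B X).card = 1) → ∀ X ⊆ G.vs, Odd X.card → (cut G B X).card = (cut G G.es X).card →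
      (cut G G.es X).card = k ∨ r ≤ (cut G G.es X).card := by
    intro B hB hB3 X hX ho h1
    rcases hs X hX (odd_cut hG hX ho).1 (cut_matching hG hB X h1) with h2 | h2
    · have h3 := hB3 X hX ho h2
      omega
    · exact h2
  have W3 : Wt G w3 := by
    refine ⟨hG.ha, hG.hb, hG.ne, ?_, ?_, ?_⟩
    · intro e _
      have h1 : 0 < 4 * r * w3 e := by
        rw [hw3e]
        split_ifs <;> linarith
      exact (pos_iff_pos_of_mul_pos h1).1 (by positivity)
    · intro v hv
      apply heq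
      rw [hw3, star_inter hM, star_inter hN, hG.deg v hv, hM.deg v hv, hN.deg v hv]
      push_cast; ring
    · intro X hX ho
      apply hge
      rw [hw3, cut_inter hM, cut_inter hN]
      obtain ⟨h1, h2⟩ := odd_cut hG hX ho
      obtain ⟨m1, m2⟩ := part hG hM hX ho
      obtain ⟨n1, n2⟩ := part hG hN hX ho
      have h2q : (3 : ℚ) ≤ (cut G G.es X).card := by exact_mod_cast h2
      have hr3 : (0 : ℚ) ≤ r - 3 := by linarith
      rcases m2 with m2 | m2
      · have m2q : ((cut G M X).card : ℚ) = (cut G G.es X).card := by exact_mod_cast m2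
        have hkt : k ≤ (cut G G.es X).card := by
          rcases hbig M hM hM3 X hX ho m2 with h3 | h3 <;> omega
        have hktq : (k : ℚ) ≤ (cut G G.es X).card := by exact_mod_cast hkt
        rcases n2 with n2 | n2
        · -- inside both
          have n2q : ((cut G N X).card : ℚ) = (cut G G.es X).card := by exact_mod_cast n2
          have hrt : r ≤ (cut G G.es X).card := by
            rcases hbig M hM hM3 X hX ho m2 with h3 | h3
            · have h4 := hNk X hX ho h3 (by omega)
              omega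
            · exact h3
          have hrtq : (r : ℚ) ≤ (cut G G.es X).card := by exact_mod_cast hrt
          rw [m2q, n2q]
          linarith
        · have n2q : ((cut G N X).card : ℚ) + 2 ≤ (cut G G.es X).card := by exact_mod_cast n2
          rw [m2q]
          nlinarith [mul_le_mul_of_nonneg_left n2q hr3]
      · have m2q : ((cut G M X).card : ℚ) + 2 ≤ (cut G G.es X).card := by exact_mod_cast m2
        rcases n2 with n2 | n2
        · have n2q : ((cut G N X).card : ℚ) = (cut G G.es X).card := by exact_mod_cast n2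
          have hkt : k ≤ (cut G G.es X).card := by
            rcases hbig N hN hN3 X hX ho n2 with h3 | h3 <;> omega
          have hktq : (k : ℚ) ≤ (cut G G.es X).card := by exact_mod_cast hkt
          rw [n2q]
          nlinarith [mul_le_mul_of_nonneg_left m2q hr3]
        · have n2q : ((cut G N X).card : ℚ) + 2 ≤ (cut G G.es X).card := by exact_mod_cast n2
          nlinarith [mul_le_mul_of_nonneg_left m2q hr3, mul_le_mul_of_nonneg_left n2q hr3]
  obtain ⟨L, hL, hLe⟩ := hE V E G w3 W3 (fun e => if e ∈ N ∩ M then 1 else 0)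
  refine ⟨M, N, L, hM, hN, hL, ?_⟩
  rintro e ⟨he1, he2, he3⟩
  have h1 : ∑ e ∈ L, (if e ∈ N ∩ M then (1 : ℚ) else 0) = (L ∩ (N ∩ M)).card := by
    rw [← sum_filter, filter_mem_eq_inter, sum_const, nsmul_eq_mul, mul_one]
  have h2 : ∑ e ∈ G.es, (if e ∈ N ∩ M then (1 : ℚ) else 0) * w3 e = 1 / r * (N ∩ M).card := by
    have h3 : ∀ e ∈ G.es, (if e ∈ N ∩ M then (1 : ℚ) else 0) * w3 e =
        if e ∈ N ∩ M then 1 / (r : ℚ) else 0 := by
      intro e _
      by_cases h4 : e ∈ N ∩ M
      · obtain ⟨h5, h6⟩ := mem_inter.1 h4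
        show (if e ∈ N ∩ M then (1 : ℚ) else 0) * ((2 * (r - 1 : ℚ) -
          (r - 3) * (if e ∈ M then 1 else 0) - (r - 3) * (if e ∈ N then 1 else 0)) / (4 * r)) = _
        rw [if_pos h4, if_pos h4, if_pos h5, if_pos h6]
        field_simp
        ring
      · rw [if_neg h4, if_neg h4, zero_mul]
    have h4 : G.es ∩ (N ∩ M) = N ∩ M :=
      inter_eq_right.2 (fun e he => hM.sub (mem_inter.1 he).2)
    rw [sum_congr rfl h3, ← sum_filter, filter_mem_eq_inter, h4, sum_const, nsmul_eq_mul]
    ring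
  rw [h1, h2] at hLe
  have h3 : 1 ≤ (L ∩ (N ∩ M)).card :=
    card_pos.2 ⟨e, mem_inter.2 ⟨he3, mem_inter.2 ⟨he2, he1⟩⟩⟩
  have h4 : (1 : ℚ) ≤ (L ∩ (N ∩ M)).card := by exact_mod_cast h3
  have h5 : (r : ℚ) ≤ (N ∩ M).card := by
    have h6 : (r : ℚ) * 1 ≤ r * (1 / r * (N ∩ M).card) :=
      mul_le_mul_of_nonneg_left (h4.trans hLe) hr0.le
    have h7 : (r : ℚ) * (1 / r * (N ∩ M).card) = (N ∩ M).card := by field_simp
    linarith
  have h6 : r ≤ (N ∩ M).card := by exact_mod_cast h5
  have h7 := Nat.mul_le_mul_left (2 * k) h6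
  omega

end Pool.Agent.H42.RG
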