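import Pool.Agent.H42.RG.W3

/-!
# The third perfect matching, weights for a general k
-/

set_option autoImplicit false
set_option linter.unusedSectionVars false

namespace Pool.Agent.H42.RG

open Pool.Agent.H43.F5 Pool.Agent.H51.RG Finset

variable {V E : Type} [DecidableEq V] [DecidableEq E] {G : Gr V E}

/-- the third weights: with `x = 1 / (2 k - 3)` they are `x` on `M ∩ N`, `(1 + x) / 4` on the edges
in exactly one of `M`, `N`, and `(1 - x) / 2` on the others -/
def w3 (M N : Finset E) (k : ℕ) : E → ℚ := fun e =>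
  (2 * (k - 2) - (k - 3) * (if e ∈ M then 1 else 0) -
    (k - 3) * (if e ∈ N then 1 else 0)) / (2 * (2 * k - 3))

theorem wt3 (hG : Ok G) {M N : Finset E} (hM : PM G M) (hN : PM G N) (k : ℕ) (hk : 5 ≤ k)
    (h3 : ∀ X ⊆ G.vs, Odd X.card → (cut G G.es X).card = 3 →
      (cut G M X).card = 1 ∧ (cut G N X).card = 1)
    (h5 : ∀ X ⊆ G.vs, Odd X.card → 3 < (cut G G.es X).card → (cut G G.es X).card < k →
      (cut G M X).card ≠ (cut G G.es X).card ∧ (cut G N X).card ≠ (cut G G.es X).card)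
    (hb : ∀ X ⊆ G.vs, Odd X.card → ¬ ((cut G M X).card = (cut G G.es X).card ∧
      (cut G N X).card = (cut G G.es X).card)) : Wt G (w3 M N k) := by
  have hkq : (5 : ℚ) ≤ k := by exact_mod_cast hk
  have hk0 : (0 : ℚ) < 2 * (2 * k - 3) := by linarith
  have hw3e : ∀ e, 2 * (2 * k - 3) * w3 M N k e = 2 * (k - 2 : ℚ) -
      (k - 3) * (if e ∈ M then 1 else 0) - (k - 3) * (if e ∈ N then 1 else 0) := by
    intro e
    show 2 * (2 * k - 3) * ((2 * (k - 2 : ℚ) - (k - 3) * (if e ∈ M then 1 else 0) -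
      (k - 3) * (if e ∈ N then 1 else 0)) / (2 * (2 * k - 3))) = _
    exact mul_div_cancel₀ _ (ne_of_gt hk0)
  have hw3 : ∀ A : Finset E, 2 * (2 * k - 3) * ∑ e ∈ A, w3 M N k e =
      2 * (k - 2) * A.card - (k - 3) * (A ∩ M).card - (k - 3) * (A ∩ N).card := by
    intro A
    have h0 : ∀ B : Finset E, ∑ e ∈ A, (if e ∈ B then (1 : ℚ) else 0) = (A ∩ B).card := by
      intro B
      rw [← sum_filter, filter_mem_eq_inter, sum_const, nsmul_eq_mul, mul_one]
    rw [mul_sum, sum_congr rfl (fun e _ => hw3e e), sum_sub_distrib, sum_sub_distrib, sum_const,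
      ← mul_sum, ← mul_sum, h0, h0, nsmul_eq_mul]
    ring
  have hge : ∀ s : ℚ, 2 * (2 * k - 3) ≤ 2 * (2 * k - 3) * s → 1 ≤ s := by
    intro s h1
    by_contra h2
    push Not at h2
    nlinarith
  have heq : ∀ s : ℚ, 2 * (2 * k - 3) * s = 2 * (2 * k - 3) → s = 1 := by
    intro s h1
    apply mul_left_cancel₀ (ne_of_gt hk0)
    rw [h1, mul_one]
  refine ⟨hG.ha, hG.hb, hG.ne, ?_, ?_, ?_⟩
  · intro e _
    have h1 : 0 < 2 * (2 * k - 3) * w3 M N k e := by
      rw [hw3e]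
      split_ifs <;> linarith
    exact (pos_iff_pos_of_mul_pos h1).1 hk0
  · intro v hv
    apply heq
    rw [hw3, star_inter hM, star_inter hN, hG.deg v hv, hM.deg v hv, hN.deg v hv]
    push_cast; ring
  · intro X hX ho
    apply hge
    rw [hw3, cut_inter hM, cut_inter hN]
    obtain ⟨h1, h2⟩ := odd_cut hG hX ho
    obtain ⟨m1, m2⟩ := part hG hM hX ho
    obtain ⟨n1, n2⟩ := part hG hN hX ho
    have h2q : (3 : ℚ) ≤ (cut G G.es X).card := by exact_mod_cast h2
    have hk3 : (0 : ℚ) ≤ k - 3 := by linarith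
    -- a cut inside M or N has at least k edges
    have hbig : (cut G M X).card = (cut G G.es X).card ∨
        (cut G N X).card = (cut G G.es X).card → k ≤ (cut G G.es X).card := by
      intro h4
      by_contra h6
      rcases Nat.lt_or_ge 3 (cut G G.es X).card with h7 | h7
      · have h8 := h5 X hX ho h7 (by omega)
        rcases h4 with h4 | h4
        · exact h8.1 h4
        · exact h8.2 h4
      · have h8 := h3 X hX ho (by omega)
        omega
    rcases m2 with m2 | m2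
    · have hkt := hbig (Or.inl m2)
      have hktq : (k : ℚ) ≤ (cut G G.es X).card := by exact_mod_cast hkt
      have m2q : ((cut G M X).card : ℚ) = (cut G G.es X).card := by exact_mod_cast m2
      rcases n2 with n2 | n2
      · exact absurd ⟨m2, n2⟩ (hb X hX ho)
      · have n2q : ((cut G N X).card : ℚ) + 2 ≤ (cut G G.es X).card := by exact_mod_cast n2
        rw [m2q]
        nlinarith [mul_le_mul_of_nonneg_left n2q hk3]
    · have m2q : ((cut G M X).card : ℚ) + 2 ≤ (cut G G.es X).card := by exact_mod_cast m2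
      rcases n2 with n2 | n2
      · have hkt := hbig (Or.inr n2)
        have hktq : (k : ℚ) ≤ (cut G G.es X).card := by exact_mod_cast hkt
        have n2q : ((cut G N X).card : ℚ) = (cut G G.es X).card := by exact_mod_cast n2
        rw [n2q]
        nlinarith [mul_le_mul_of_nonneg_left m2q hk3]
      · have n2q : ((cut G N X).card : ℚ) + 2 ≤ (cut G G.es X).card := by exact_mod_cast n2
        nlinarith [mul_le_mul_of_nonneg_left m2q hk3, mul_le_mul_of_nonneg_left n2q hk3]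

theorem w3_sum {M N : Finset E} (hM : PM G M) (k : ℕ) (hk : 5 ≤ k) :
    ∑ e ∈ G.es, (if e ∈ N ∩ M then (1 : ℚ) else 0) * w3 M N k e =
      1 / (2 * k - 3) * (N ∩ M).card := by
  have hkq : (5 : ℚ) ≤ k := by exact_mod_cast hk
  have hk0 : (2 * k - 3 : ℚ) ≠ 0 := by linarith
  have h3 : ∀ e ∈ G.es, (if e ∈ N ∩ M then (1 : ℚ) else 0) * w3 M N k e =
      if e ∈ N ∩ M then 1 / (2 * k - 3 : ℚ) else 0 := by
    intro e _
    by_cases h4 : e ∈ N ∩ M
    · obtain ⟨h5, h6⟩ := mem_inter.1 h4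
      show (if e ∈ N ∩ M then (1 : ℚ) else 0) * ((2 * (k - 2 : ℚ) -
        (k - 3) * (if e ∈ M then 1 else 0) - (k - 3) * (if e ∈ N then 1 else 0)) /
        (2 * (2 * k - 3))) = _
      rw [if_pos h4, if_pos h4, if_pos h5, if_pos h6]
      field_simp
      ring
    · rw [if_neg h4, if_neg h4, zero_mul]
  have h4 : G.es ∩ (N ∩ M) = N ∩ M :=
    inter_eq_right.2 (fun e he => hM.sub (mem_inter.1 he).2)
  rw [sum_congr rfl h3, ← sum_filter, filter_mem_eq_inter, h4, sum_const, nsmul_eq_mul]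
  ring

/-- the third matching -/
theorem third (hE : T_EDM) (hG : Ok G) {M N : Finset E} (hM : PM G M) (hN : PM G N) (k : ℕ)
    (hk : 5 ≤ k)
    (h3 : ∀ X ⊆ G.vs, Odd X.card → (cut G G.es X).card = 3 →
      (cut G M X).card = 1 ∧ (cut G N X).card = 1)
    (h5 : ∀ X ⊆ G.vs, Odd X.card → 3 < (cut G G.es X).card → (cut G G.es X).card < k →
      (cut G M X).card ≠ (cut G G.es X).card ∧ (cut G N X).card ≠ (cut G G.es X).card)
    (hb : ∀ X ⊆ G.vs, Odd X.card → ¬ ((cut G M X).card = (cut G G.es X).card ∧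
      (cut G N X).card = (cut G G.es X).card))
    (hn : (N ∩ M).card < 2 * k - 3) :
    ∃ L, PM G L ∧ ∀ e, ¬ (e ∈ M ∧ e ∈ N ∧ e ∈ L) := by
  have hkq : (5 : ℚ) ≤ k := by exact_mod_cast hk
  have hk0 : (0 : ℚ) < 2 * k - 3 := by linarith
  obtain ⟨L, hL, hLe⟩ := hE V E G _ (wt3 hG hM hN k hk h3 h5 hb)
    (fun e => if e ∈ N ∩ M then 1 else 0)
  refine ⟨L, hL, ?_⟩
  rintro e ⟨he1, he2, he3⟩
  have h1 : ∑ e ∈ L, (if e ∈ N ∩ M then (1 : ℚ) else 0) = (L ∩ (N ∩ M)).card := by
    rw [← sum_filter, filter_mem_eq_inter, sum_const, nsmul_eq_mul, mul_one]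
  rw [h1, w3_sum hM k hk] at hLe
  have h3 : 1 ≤ (L ∩ (N ∩ M)).card :=
    card_pos.2 ⟨e, mem_inter.2 ⟨he3, mem_inter.2 ⟨he2, he1⟩⟩⟩
  have h4 : (1 : ℚ) ≤ (L ∩ (N ∩ M)).card := by exact_mod_cast h3
  have h6 : (2 * k - 3 : ℚ) * 1 ≤ (2 * k - 3) * (1 / (2 * k - 3) * (N ∩ M).card) :=
    mul_le_mul_of_nonneg_left (h4.trans hLe) hk0.le
  have h7 : (2 * k - 3 : ℚ) * (1 / (2 * k - 3) * (N ∩ M).card) = (N ∩ M).card := by
    field_simp
  rw [h7] at h6
  have h8 : (2 * k : ℚ) ≤ (N ∩ M).card + 3 := by linarith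
  have h9 : 2 * k ≤ (N ∩ M).card + 3 := by exact_mod_cast h8
  omega

end Pool.Agent.H42.RG
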