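import Pool.Agent.H51.RG.Defs

/-!
MP_994f6a_co: the weights `1/k` on a perfect matching and `(k-1)/(2k)` outside (helper42).
-/

set_option autoImplicit false
set_option linter.unusedSectionVars false

namespace Pool.Agent.H42.RG

open Pool.Agent.H43.F5 Pool.Agent.H51.RG Finset

variable {V E : Type} [DecidableEq V] [DecidableEq E]

/-- weight `1/k` on `M` and `(k-1)/(2k)` outside -/
def wk (M : Finset E) (k : ℕ) (e : E) : ℚ := if e ∈ M then 1 / (k : ℚ) else ((k : ℚ) - 1) / (2 * k)

theorem sum_wk (M S : Finset E) (k : ℕ) : ∑ e ∈ S, wk M k e =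
    ((S.filter (· ∈ M)).card : ℚ) * (1 / k) +
      ((S.card : ℚ) - (S.filter (· ∈ M)).card) * (((k : ℚ) - 1) / (2 * k)) := by
  have h1 : ∑ e ∈ S, wk M k e = ∑ e ∈ S.filter (· ∈ M), wk M k e +
      ∑ e ∈ S.filter (fun e => ¬ e ∈ M), wk M k e := (Finset.sum_filter_add_sum_filter_not S _ _).symm
  have h2 : ∑ e ∈ S.filter (· ∈ M), wk M k e = ((S.filter (· ∈ M)).card : ℚ) * (1 / k) := by
    rw [Finset.sum_congr rfl (g := fun _ => 1 / (k : ℚ)), Finset.sum_const, nsmul_eq_mul]
    intro e he
    rw [wk, if_pos (Finset.mem_filter.1 he).2]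
  have h3 : ∑ e ∈ S.filter (fun e => ¬ e ∈ M), wk M k e =
      ((S.filter (fun e => ¬ e ∈ M)).card : ℚ) * (((k : ℚ) - 1) / (2 * k)) := by
    rw [Finset.sum_congr rfl (g := fun _ => ((k : ℚ) - 1) / (2 * k)), Finset.sum_const,
      nsmul_eq_mul]
    intro e he
    rw [wk, if_neg (Finset.mem_filter.1 he).2]
  have h4 : ((S.filter (fun e => ¬ e ∈ M)).card : ℚ) =
      (S.card : ℚ) - (S.filter (· ∈ M)).card := by
    have h5 := Finset.card_filter_add_card_filter_not (s := S) (· ∈ M)
    rw [← h5]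
    push_cast
    ring
  rw [h1, h2, h3, h4]

theorem wt_k {G : Gr V E} (hG : Ok G) {M : Finset E} (hM : PM G M) (k : ℕ) (hk : 3 ≤ k)
    (h : ∀ X ⊆ G.vs, Odd X.card → (∀ e ∈ G.es, Cr G X e → e ∈ M) →
      k ≤ (cut G G.es X).card) : Wt G (wk M k) := by
  have hk0 : (0 : ℚ) < k := by exact_mod_cast (by omega : 0 < k)
  have hk1 : (1 : ℚ) < k := by exact_mod_cast (by omega : 1 < k)
  refine ⟨hG.ha, hG.hb, hG.ne, ?_, ?_, ?_⟩
  · intro e _
    unfold wk
    split_ifs
    · positivity
    · have : (0 : ℚ) < k - 1 := by linarith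
      positivity
  · intro v hv
    have h1 : ((star G G.es v).filter (· ∈ M)) = star G M v := by
      ext e
      simp only [Finset.mem_filter, mem_star]
      constructor
      · rintro ⟨⟨_, h2⟩, h3⟩
        exact ⟨h3, h2⟩
      · rintro ⟨h2, h3⟩
        exact ⟨⟨hM.sub h2, h3⟩, h2⟩
    rw [sum_wk, h1, hG.deg v hv, hM.deg v hv]
    field_simp
    push_cast
    ring
  · intro X hX hodd
    have h1 : ((cut G G.es X).filter (· ∈ M)) = cut G M X := by
      ext e
      simp only [Finset.mem_filter, mem_cut]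
      constructor
      · rintro ⟨⟨_, h2⟩, h3⟩
        exact ⟨h3, h2⟩
      · rintro ⟨h2, h3⟩
        exact ⟨⟨hM.sub h2, h3⟩, h2⟩
    have h2 := cut_parity hG hX
    have h3 := cutN_parity hG hM hX
    have h4 : X.card % 2 = 1 := Nat.odd_iff.1 hodd
    have h5 : (cut G M X).card ≤ (cut G G.es X).card := Finset.card_le_card (cut_mono hM.sub X)
    rw [sum_wk, h1]
    rcases eq_or_lt_of_le h5 with h6 | h6
    · have h7 : cut G M X = cut G G.es X := Finset.eq_of_subset_of_card_le (cut_mono hM.sub X) h6.ge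
      have h8 : k ≤ (cut G G.es X).card := by
        refine h X hX hodd fun e he hc => ?_
        have : e ∈ cut G M X := by
          rw [h7]
          exact mem_cut.2 ⟨he, hc⟩
        exact (mem_cut.1 this).1
      have h9 : (k : ℚ) ≤ (cut G G.es X).card := by exact_mod_cast h8
      rw [h6, sub_self, zero_mul, add_zero, mul_one_div, le_div_iff₀ hk0, one_mul]
      exact h9
    · have h7 : (cut G M X).card + 2 ≤ (cut G G.es X).card := by omega
      have h8 : 1 ≤ (cut G M X).card := by omega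
      have h9 : ((cut G M X).card : ℚ) + 2 ≤ (cut G G.es X).card := by exact_mod_cast h7
      have h10 : (1 : ℚ) ≤ (cut G M X).card := by exact_mod_cast h8
      have h11 : (1 : ℚ) = 1 * (1 / k) + 2 * (((k : ℚ) - 1) / (2 * k)) := by
        field_simp
        ring
      have h12 : (0 : ℚ) ≤ ((k : ℚ) - 1) / (2 * k) := by
        have : (0 : ℚ) < k - 1 := by linarith
        positivity
      calc (1 : ℚ) = 1 * (1 / k) + 2 * (((k : ℚ) - 1) / (2 * k)) := h11
        _ ≤ _ := by
          refine add_le_add (mul_le_mul_of_nonneg_right h10 (by positivity))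
            (mul_le_mul_of_nonneg_right (by linarith) h12)

end Pool.Agent.H42.RG
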